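import Pool.Agent.helper81.DI.SpecC

/-!
# C1: congruences modulo `M`
-/

set_option autoImplicit false

namespace Pool.Agent.DI

open Pool.Agent.helper58.DC

theorem C1_mem {M : Ideal (integralClosure ℤ ℂ)} {a : ℂ} (ha : IsIntegral ℤ a)
    (h : Mcong M a 0) : (⟨a, ha⟩ : integralClosure ℤ ℂ) ∈ M := by
  obtain ⟨c, hc, h1⟩ := h
  have h2 : (⟨a, ha⟩ : integralClosure ℤ ℂ) = c := Subtype.ext (by rw [← h1, sub_zero])
  rw [h2]
  exact hc

theorem C1_of {M : Ideal (integralClosure ℤ ℂ)} {a : integralClosure ℤ ℂ} (h : a ∈ M) :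
    Mcong M (a : ℂ) 0 := ⟨a, h, sub_zero _⟩

theorem C1_refl {M : Ideal (integralClosure ℤ ℂ)} (a : ℂ) : Mcong M a a :=
  ⟨0, M.zero_mem, by simp⟩

theorem C1_add {M : Ideal (integralClosure ℤ ℂ)} {a b c d : ℂ} (h : Mcong M a b)
    (h' : Mcong M c d) : Mcong M (a + c) (b + d) := by
  obtain ⟨x, hx, h1⟩ := h
  obtain ⟨y, hy, h2⟩ := h'
  refine ⟨x + y, M.add_mem hx hy, ?_⟩
  push_cast
  rw [← h1, ← h2]
  ring

theorem C1 : C1_stmt := by
  intro p _ M hM hp
  have hprime : M.IsPrime := hM.isPrime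
  refine ⟨C1_refl, ?_, ?_, ?_, ?_, ?_, ?_, ?_, ?_, ?_⟩
  · rintro a b ⟨c, hc, h⟩
    refine ⟨-c, M.neg_mem hc, ?_⟩
    push_cast
    rw [← h]
    ring
  · rintro a b c ⟨x, hx, h1⟩ ⟨y, hy, h2⟩
    refine ⟨x + y, M.add_mem hx hy, ?_⟩
    push_cast
    rw [← h1, ← h2]
    ring
  · intro a b c d h h'
    refine ⟨C1_add h h', ?_⟩
    obtain ⟨x, hx, h1⟩ := h
    obtain ⟨y, hy, h2⟩ := h'
    refine ⟨x - y, M.sub_mem hx hy, ?_⟩
    push_cast
    rw [← h1, ← h2]
    ring
  · rintro a b c hc ⟨x, hx, h1⟩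
    refine ⟨⟨c, hc⟩ * x, M.mul_mem_left _ hx, ?_⟩
    show c * a - c * b = c * (x : ℂ)
    rw [← h1]
    ring
  · intro a b ha hb h
    have h1 := C1_mem (ha.mul hb) h
    have h2 : (⟨a, ha⟩ * ⟨b, hb⟩ : integralClosure ℤ ℂ) ∈ M := h1
    rcases hprime.mem_or_mem h2 with h3 | h3
    · exact Or.inl (C1_of h3)
    · exact Or.inr (C1_of h3)
  · intro n
    constructor
    · rintro ⟨c, hc, h⟩
      have hn : (n : integralClosure ℤ ℂ) ∈ M := by
        have h1 : (n : integralClosure ℤ ℂ) = c := by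
          apply Subtype.ext
          rw [← h, sub_zero]
          push_cast
          rfl
        rw [h1]
        exact hc
      by_contra hpn
      have hco : Nat.Coprime p n := ((Fact.out (p := p.Prime)).coprime_iff_not_dvd).2 hpn
      have h1 : IsCoprime (p : ℤ) (n : ℤ) := Nat.isCoprime_iff_coprime.2 hco
      obtain ⟨u, v, huv⟩ := h1
      apply hprime.ne_top
      rw [Ideal.eq_top_iff_one]
      have h2 : ((u : integralClosure ℤ ℂ) * (p : integralClosure ℤ ℂ) +
          (v : integralClosure ℤ ℂ) * (n : integralClosure ℤ ℂ)) = 1 := by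
        have h3 := congrArg (Int.cast : ℤ → integralClosure ℤ ℂ) huv
        push_cast at h3
        exact h3
      rw [← h2]
      exact M.add_mem (M.mul_mem_left _ hp) (M.mul_mem_left _ hn)
    · rintro ⟨k, rfl⟩
      refine ⟨(p : integralClosure ℤ ℂ) * (k : integralClosure ℤ ℂ), M.mul_mem_right _ hp, ?_⟩
      push_cast
      ring
  · intro a ha h
    have h1 : (⟨a, ha⟩ : integralClosure ℤ ℂ) ∉ M := fun h2 => h (C1_of h2)
    obtain ⟨y, i, hi, h2⟩ := hM.exists_inv h1
    refine ⟨y, y.2, -i, M.neg_mem hi, ?_⟩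
    have h3 := congrArg (Subtype.val) h2
    have h4 : (y : ℂ) * a + (i : ℂ) = 1 := h3
    push_cast
    linear_combination h4
  · rintro a b ⟨c, hc, h⟩ hb
    have h1 : a = b + (c : ℂ) := by rw [← h]; ring
    rw [h1]
    exact hb.add c.2
  · intro ι s f g h
    classical
    induction s using Finset.induction_on with
    | empty => simpa using C1_refl 0
    | insert i s hi ih =>
      rw [Finset.sum_insert hi, Finset.sum_insert hi]
      exact C1_add (h i (Finset.mem_insert_self _ _))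
        (ih fun j hj => h j (Finset.mem_insert_of_mem hj))

end Pool.Agent.DI
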