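import Pool.Agent.helper81.DI.SpecC

/-!
# C9: induced blocks from normalisers of radical chains are defined
-/

set_option autoImplicit false

namespace Pool.Agent.DI

open Pool.Agent.helper58.DC

theorem C9 (hA13 : A13_stmt) (hC7 : C7_stmt) (hC8 : C8_stmt) : C9_stmt := by
  intro Γ _ _ p _ M hM hp C hC ψ hψ
  obtain ⟨P, -, -, hP, h1, h2, h3⟩ := hA13 Γ p C hC
  exact hC8 Γ p M hM hp ψ (hC7 Γ p M hM hp P (nrm C) h1 h2 h3 hP ψ hψ)

end Pool.Agent.DI
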