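import Pool.Agent.helper81.DI.SpecD

/-!
# D9: the extension given by the centraliser of `Q`
-/

set_option autoImplicit false

namespace Pool.Agent.DI

open Pool.Agent.helper58.DC

section

variable {E : Type} [Group E]

theorem D9_comm {Q : Subgroup E} {m q : E} (hm : m ∈ cz Q) (hq : q ∈ Q) : q * m = m * q :=
  (Subgroup.mem_centralizer_iff.1 hm) q hq

instance D9_normal (Q : Subgroup E) : (Q.subgroupOf (cz Q)).Normal := by
  refine ⟨fun q hq m => ?_⟩
  rw [Subgroup.mem_subgroupOf] at hq ⊢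
  have h : (m : E) * (q : E) * (m : E)⁻¹ = q := by
    rw [← D9_comm m.2 hq, mul_assoc, mul_inv_cancel, mul_one]
  show (m : E) * (q : E) * (m : E)⁻¹ ∈ Q
  rw [h]
  exact hq

/-- conjugation -/
def D9_act0 (G' Q : Subgroup E) (hN : G'.Normal) : ↥(cz Q) →* MulAut ↥(G' ⊓ cz Q) where
  toFun m :=
    { toFun := fun k => ⟨(m : E) * k * (m : E)⁻¹, hN.conj_mem _ k.2.1 _,
        (cz Q).mul_mem ((cz Q).mul_mem m.2 k.2.2) ((cz Q).inv_mem m.2)⟩
      invFun := fun k => ⟨(m : E)⁻¹ * k * m, by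
          have h := hN.conj_mem _ k.2.1 (m : E)⁻¹
          rwa [inv_inv] at h,
        (cz Q).mul_mem ((cz Q).mul_mem ((cz Q).inv_mem m.2) k.2.2) m.2⟩
      left_inv := fun k => by
        apply Subtype.ext
        show (m : E)⁻¹ * ((m : E) * k * (m : E)⁻¹) * m = k
        group
      right_inv := fun k => by
        apply Subtype.ext
        show (m : E) * ((m : E)⁻¹ * k * m) * (m : E)⁻¹ = k
        group
      map_mul' := fun k k' => by
        apply Subtype.ext
        show (m : E) * (k * k') * (m : E)⁻¹ = (m : E) * k * (m : E)⁻¹ * ((m : E) * k' * (m : E)⁻¹)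
        group }
  map_one' := by
    ext k
    show (1 : E) * k * (1 : E)⁻¹ = k
    group
  map_mul' m m' := by
    ext k
    show ((m : E) * m') * k * ((m : E) * m')⁻¹ = (m : E) * ((m' : E) * k * (m' : E)⁻¹) * (m : E)⁻¹
    group

theorem D9_act0_apply (G' Q : Subgroup E) (hN : G'.Normal) (m : ↥(cz Q)) (k : ↥(G' ⊓ cz Q)) :
    ((D9_act0 G' Q hN m k : ↥(G' ⊓ cz Q)) : E) = (m : E) * k * (m : E)⁻¹ := rfl

theorem D9_act0_one (G' Q : Subgroup E) (hN : G'.Normal) (m : ↥(cz Q))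
    (hm : m ∈ Q.subgroupOf (cz Q)) : D9_act0 G' Q hN m = 1 := by
  ext k
  rw [D9_act0_apply]
  have h := D9_comm k.2.2 (Subgroup.mem_subgroupOf.1 hm)
  rw [h, mul_assoc, mul_inv_cancel, mul_one]
  rfl

variable {B : Type} [Group B]

/-- the extension -/
def D9_Y (G' Q : Subgroup E) (hN : G'.Normal) (hQ : Q ≤ cz Q) (hQG : Q ⊓ G' = ⊥)
    (f : ↥(cz Q) →* B) (hf : ∀ m, f m = 1 ↔ ∃ q ∈ Q, (m : E) * q⁻¹ ∈ G') :
    Extension ↥(G' ⊓ cz Q) (↥(cz Q) ⧸ Q.subgroupOf (cz Q)) ↥f.range where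
  inc := (QuotientGroup.mk' (Q.subgroupOf (cz Q))).comp
    (Subgroup.inclusion (inf_le_right : G' ⊓ cz Q ≤ cz Q))
  proj := QuotientGroup.lift (Q.subgroupOf (cz Q)) f.rangeRestrict (fun m hm => by
    apply Subtype.ext
    show f m = 1
    rw [hf]
    refine ⟨m, Subgroup.mem_subgroupOf.1 hm, ?_⟩
    rw [mul_inv_cancel]
    exact G'.one_mem)
  inc_injective := by
    rw [injective_iff_map_eq_one]
    intro k hk
    have h1 : (Subgroup.inclusion (inf_le_right : G' ⊓ cz Q ≤ cz Q)) k ∈ Q.subgroupOf (cz Q) :=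
      (QuotientGroup.eq_one_iff _).1 hk
    have h2 : (k : E) ∈ Q := Subgroup.mem_subgroupOf.1 h1
    have h3 : (k : E) ∈ Q ⊓ G' := ⟨h2, k.2.1⟩
    rw [hQG, Subgroup.mem_bot] at h3
    exact Subtype.ext h3
  proj_surjective := by
    rintro ⟨b, m, rfl⟩
    exact ⟨QuotientGroup.mk m, rfl⟩
  exact := by
    intro e
    obtain ⟨m, rfl⟩ := QuotientGroup.mk_surjective e
    constructor
    · intro h
      have h1 : f m = 1 := congrArg Subtype.val h
      obtain ⟨q, hq, hmq⟩ := (hf m).1 h1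
      refine ⟨⟨(m : E) * q⁻¹, hmq, (cz Q).mul_mem m.2 ((cz Q).inv_mem (hQ hq))⟩, ?_⟩
      refine (QuotientGroup.eq (s := Q.subgroupOf (cz Q))).2 ?_
      rw [Subgroup.mem_subgroupOf]
      show ((m : E) * q⁻¹)⁻¹ * m ∈ Q
      have h2 : ((m : E) * q⁻¹)⁻¹ * m = q := by group
      rw [h2]
      exact hq
    · rintro ⟨k, hk⟩
      rw [← hk]
      apply Subtype.ext
      show f _ = 1
      rw [hf]
      refine ⟨1, Q.one_mem, ?_⟩
      rw [inv_one, mul_one]
      exact k.2.1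
  act := QuotientGroup.lift (Q.subgroupOf (cz Q)) (D9_act0 G' Q hN)
    (fun m hm => D9_act0_one G' Q hN m hm)
  act_spec := by
    intro e k
    obtain ⟨m, rfl⟩ := QuotientGroup.mk_surjective e
    rfl

/-- the embedding -/
def D9_em (G' Q : Subgroup E) (hN : G'.Normal) (hQ : Q ≤ cz Q) (hQG : Q ⊓ G' = ⊥)
    (f : ↥(cz Q) →* B) (hf : ∀ m, f m = 1 ↔ ∃ q ∈ Q, (m : E) * q⁻¹ ∈ G') :
    Emb (D9_Y G' Q hN hQ hQG f hf) G' (cz Q) (Nat.card Q) where
  i := (G' ⊓ cz Q).subtype
  π := QuotientGroup.mk' (Q.subgroupOf (cz Q))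
  i_inj := Subgroup.subtype_injective _
  π_surj := QuotientGroup.mk'_surjective _
  range := by rw [Subgroup.range_subtype, inf_comm]
  compat := fun _ _ => rfl
  act := fun _ _ => rfl
  card := by
    rw [QuotientGroup.ker_mk']
    exact Nat.card_congr (Subgroup.subgroupOfEquivOfLe hQ).toEquiv

end

theorem D9 : D9_stmt := by
  intro G E A _ _ _ _ _ X hA Q hQ hQG
  have hG : ∀ e : E, e ∈ X.inc.range ↔ X.proj e = 1 := fun e => (X.exact e).symm
  have hN : X.inc.range.Normal := by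
    refine ⟨fun g hg e => ?_⟩
    rw [hG] at hg ⊢
    rw [map_mul, map_mul, hg, mul_one, ← map_mul, mul_inv_cancel, map_one]
  have hcomm : ∀ a b : A, a * b = b * a := by
    obtain ⟨g, hg⟩ := hA.exists_generator
    intro a b
    obtain ⟨i, rfl⟩ := Subgroup.mem_zpowers_iff.1 (hg a)
    obtain ⟨j, rfl⟩ := Subgroup.mem_zpowers_iff.1 (hg b)
    rw [← zpow_add, ← zpow_add, add_comm]
  have hQc : Q ≤ cz Q := by
    intro q hq
    rw [Subgroup.mem_centralizer_iff]
    intro r hr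
    have h1 : r * q * r⁻¹ * q⁻¹ ∈ Q ⊓ X.inc.range := by
      refine ⟨Q.mul_mem (Q.mul_mem (Q.mul_mem hr hq) (Q.inv_mem hr)) (Q.inv_mem hq), ?_⟩
      refine (hG _).2 ?_
      rw [map_mul, map_mul, map_mul, map_inv, map_inv, hcomm (X.proj r) (X.proj q),
        mul_inv_cancel_right, mul_inv_cancel]
    rw [hQG, Subgroup.mem_bot] at h1
    have h2 : r * q = r * q * r⁻¹ * q⁻¹ * (q * r) := by group
    rw [h2, h1, one_mul]
  have hBn : (Q.map X.proj).Normal := by
    refine ⟨fun b hb a => ?_⟩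
    rw [hcomm a b, mul_inv_cancel_right]
    exact hb
  have hf : ∀ m : ↥(cz Q), ((QuotientGroup.mk' (Q.map X.proj)).comp
      (X.proj.comp (cz Q).subtype)) m = 1 ↔ ∃ q ∈ Q, (m : E) * q⁻¹ ∈ X.inc.range := by
    intro m
    have h1 : ((QuotientGroup.mk' (Q.map X.proj)).comp
      (X.proj.comp (cz Q).subtype)) m = 1 ↔ X.proj m ∈ Q.map X.proj :=
      QuotientGroup.eq_one_iff _
    rw [h1, Subgroup.mem_map]
    refine exists_congr fun q => and_congr_right fun _ => ?_
    rw [hG, map_mul, map_inv, mul_inv_eq_one]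
    exact eq_comm
  have hAf : Finite A := Finite.of_surjective _ X.proj_surjective
  have hcB : Nat.card (Q.map X.proj) = Nat.card Q := by
    refine (Nat.card_congr (Equiv.ofBijective (X.proj.subgroupMap Q) ⟨?_, ?_⟩)).symm
    · rw [injective_iff_map_eq_one]
      intro q hq
      have h1 : X.proj q = 1 := congrArg Subtype.val hq
      have h2 : (q : E) ∈ Q ⊓ X.inc.range := ⟨q.2, (hG _).2 h1⟩
      rw [hQG, Subgroup.mem_bot] at h2
      exact Subtype.ext h2
    · exact X.proj.subgroupMap_surjective Q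
  have hdvd : Nat.card Q * Nat.card ((QuotientGroup.mk' (Q.map X.proj)).comp
      (X.proj.comp (cz Q).subtype)).range ∣ Nat.card A := by
    rw [(Q.map X.proj).card_eq_card_quotient_mul_card_subgroup, hcB, mul_comm]
    exact Nat.mul_dvd_mul_right (Subgroup.card_subgroup_dvd_card _) _
  have hcyc : IsCyclic (A ⧸ Q.map X.proj) :=
    isCyclic_of_surjective (QuotientGroup.mk' (Q.map X.proj)) (QuotientGroup.mk'_surjective _)
  refine ⟨↥(cz Q) ⧸ Q.subgroupOf (cz Q), _, inferInstance, inferInstance, inferInstance,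
    D9_Y X.inc.range Q hN hQc hQG _ hf, D9_em X.inc.range Q hN hQc hQG _ hf, rfl, ?_, ?_, hdvd⟩
  · infer_instance
  · have h1 : 1 < Nat.card Q := by
      rw [Finite.one_lt_card_iff_nontrivial]
      exact (Subgroup.nontrivial_iff_ne_bot Q).2 hQ
    have h2 := Nat.le_of_dvd Nat.card_pos hdvd
    have h3 : 0 < Nat.card ((QuotientGroup.mk' (Q.map X.proj)).comp
      (X.proj.comp (cz Q).subtype)).range := Nat.card_pos
    nlinarith

end Pool.Agent.DI
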